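import Pool.Agent.R869.SSix
import Pool.Agent.R869.UCorK

/-!
MP_2a5ae2_ag, Q1: the Green-Griffiths-Lang conjecture for all irreducible components of all projective
varieties given by linear combinations of the powers `x_j ^ d` and of `s` further monomials of degree
`d`, in given sets of variables, for almost all choices of these monomials; a combinatorial criterion
for the absence of entire curves which do not lie in given coordinate hyperplanes, which is necessary
and sufficient for hypersurfaces (with arbitrary coefficients); Brody hyperbolic hypersurfaces and
complete intersections, of all dimensions.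

`TuplesIn I d`, `AlmostAllIn I P`, `Spread I m J` (`Pool/Agent/R869/SDefs.lean`): the tuples of
exponent vectors of degree `d`, the `i`-th one of a monomial in the variables from `I i`; the
proportion of the tuples with the property `P` tends to `1` for `d → ∞`; for all colourings of the
variables which are not constant on `J`, `∑ min (m + 1) (a v + b v) ≤ m (N + 2) + 1`, the sum over the
colours `v` on `J`, where `a v` and `b v` are the numbers of the variables from `J` and of the sets
`I i ⊆ J` with the colour `v`, and `N` is the number of the sets `I i ⊆ J` with different colours.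
`withPowers` (`WDensDefs.lean`): the set of the exponent vectors `a i` and of those of the `x_j ^ d`.
`Loose F J` (`USharpDefs.lean`): `F` does not have exactly one monomial in the variables from `J`, and
there is a colouring of the variables with `V ≥ 2` colours on `J` such that `N + D + 4 ≤ 2 V`, where
`N` is the number of the monomials of `F` in the variables from `J` whose variables have different
colours, and `D` is the number of the colours on `J` for which exactly one monomial of `F` in the
variables from `J` has all its variables of this colour. `OrbitIn F b x` (`SDir.lean`): the points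
`(t ^ b_j x_j)` are in `X`.
`GenCoeffs F T` (`WGen.lean`): the coefficient vectors of the `m` forms `F e` at any `m` elements of
`T` are linearly independent (all coefficients are nonzero, if `m = 1`). `BrodyV ∅ y`
(`WCptC.lean`): the variety `V` with generic point `y` is pseudo-Brody hyperbolic. From the starting
repository: `SubVar`, `IsComponent`, `Acts` (`Pool/Agent/W602/GT`): the function fields and generic
points of the closed subvarieties of `X = {F = 0}`, those which are irreducible components, diagonal
actions; `GeneralType`, `Psef`, `Ruled`, `AllGeneralType`: general type, pseudo-effective canonical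
class, birational to a product with the projective line, all closed subvarieties of positive dimension
are of general type; `EntireCurve ∅ F f` (`Pool/Agent/H159R3/GGL/Log.lean`): `f` is the vector of
homogeneous coordinates of an entire curve in `X`.
-/

set_option autoImplicit false

namespace Pool.Agent.Results.MP_2a5ae2_ag.AlmostAllMonomials

open MvPolynomial Pool.Agent.W602.GT Pool.Agent.H159R3.GGLLog Pool.Agent.R869.Wd

/-- For the hypersurface `X = {F = 0}` and the set `J` of variables, the following are equivalent: `J`
is loose for `F`; there is an entire curve in `X` on which exactly the coordinates outside `J` vanish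
identically; there is such a rational curve in `X`, the closure of an orbit of a diagonal
one-parameter group; there is a closed subvariety of `X` of positive dimension, on which exactly the
coordinates outside `J` vanish identically, which is not of general type. -/
def LooseCriterion {n : ℕ} (F : MvPolynomial (Fin (n + 1)) ℂ) (J : Finset (Fin (n + 1))) : Prop :=
  [Loose F J,
    ∃ f, EntireCurve ∅ (fun _ : Fin 1 => F) f ∧ ∀ j, (∃ z, f z j ≠ 0) ↔ j ∈ J,
    ∃ (x : Fin (n + 1) → ℂ) (b : Fin (n + 1) → ℤ), (∀ j, x j ≠ 0 ↔ j ∈ J) ∧
      (∃ j ∈ J, ∃ j' ∈ J, b j ≠ b j') ∧ OrbitIn (fun _ : Fin 1 => F) b x,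
    ∃ (K : Type) (_ : Field K) (_ : Algebra ℂ K) (w : ℕ) (y : Fin (n + 1) → K), 1 ≤ w ∧
      SubVar (fun _ : Fin 1 => F) K w y ∧ (∀ j, y j ≠ 0 ↔ j ∈ J) ∧ ¬ GeneralType ℂ K w].TFAE

/-- (1) For all `n`, `s`, all nonempty sets of variables `I 1, …, I s` and almost all tuples of
monomials of degree `d` in `n + 1` variables, the `i`-th one in the variables from `I i`, the
following holds for all projective varieties `X` given by `m` linear combinations of these monomials
and of the `x_j ^ d`. For each irreducible component `V` of `X` of positive dimension the following
are equivalent: `V` is of general type; `V` is pseudo-Brody hyperbolic; the canonical class of `V` is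
pseudo-effective; `V` is not ruled; all diagonal one-parameter groups which act on `V` act trivially.
If `X` is a hypersurface (with arbitrary coefficients), then for all sets `J` of variables there is an
entire curve in `X` on which exactly the variables outside `J` vanish identically if and only if `J`
is loose for the equation of `X` (`LooseCriterion`). If any `m` of the coefficient vectors are linearly
independent, and the `I i` are well spread on the set `J` of variables, with respect to `m`, then
there is no entire curve in `X` on which exactly the variables outside `J` vanish identically, and the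
closed subvarieties of `X` of positive dimension with this property are of general type.

(2) If all sets of `2 m + 2` variables are among the `I i`, `m ≥ 1`, and all `I i` have at least
`m + 1` elements, then, for almost all tuples of such monomials, all the `X` given by `m` such linear
combinations, with any `m` coefficient vectors linearly independent, are Brody hyperbolic, and all
their closed subvarieties of positive dimension are of general type. -/
theorem result :
    (∀ (n s : ℕ) (I : Fin s → Finset (Fin (n + 1))), (∀ i, (I i).Nonempty) →
      AlmostAllIn I fun d a => (∀ (m : ℕ) (F : Fin m → MvPolynomial (Fin (n + 1)) ℂ),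
        (∀ e, (F e).support ⊆ withPowers d a) →
        (∀ (K : Type) [Field K] [Algebra ℂ K] (w : ℕ) (y : Fin (n + 1) → K), 1 ≤ w →
          SubVar F K w y → IsComponent F y →
            [GeneralType ℂ K w, BrodyV ∅ y, Psef ℂ K w (fun _ => False), ¬ Ruled ℂ K,
              ∀ b : Fin (n + 1) → ℤ, Acts ∅ ℂ y b → ∀ i i', y i ≠ 0 → y i' ≠ 0 →
                b i = b i'].TFAE) ∧
        (GenCoeffs F (withPowers d a) → ∀ J : Finset (Fin (n + 1)), Spread I m J →
          (∀ f, EntireCurve ∅ F f → ¬ ∀ j, (∃ z, f z j ≠ 0) ↔ j ∈ J) ∧
          ∀ (K : Type) [Field K] [Algebra ℂ K] (w : ℕ) (y : Fin (n + 1) → K), 1 ≤ w →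
            SubVar F K w y → (∀ j, y j ≠ 0 ↔ j ∈ J) → GeneralType ℂ K w)) ∧
        ∀ (F : MvPolynomial (Fin (n + 1)) ℂ) (J : Finset (Fin (n + 1))),
          F.support ⊆ withPowers d a → LooseCriterion F J) ∧
    ∀ (n m s : ℕ) (I : Fin s → Finset (Fin (n + 1))), 1 ≤ m → (∀ i, m + 1 ≤ (I i).card) →
      (∀ A : Finset (Fin (n + 1)), A.card = 2 * m + 2 → ∃ i, I i = A) →
      AlmostAllIn I fun d a => ∀ F : Fin m → MvPolynomial (Fin (n + 1)) ℂ,
        (∀ e, (F e).support ⊆ withPowers d a) → GenCoeffs F (withPowers d a) →
          (∀ f, ¬ EntireCurve ∅ F f) ∧ AllGeneralType F := by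
  classical
  constructor
  · intro n s I hI
    refine almost_typI hI fun d a hty => ⟨fun m F hFT => ⟨fun K _ _ w y hw hy hcomp => ?_,
      fun hgc J hJ => ⟨fun f hf hfJ => hty.no_entire hFT hgc hfJ hJ hf,
        fun K _ _ w y hw hy hyJ => (general_iff y).1
          (hty.lgt hFT hgc hw (subVar_iff.2 hy) hyJ hJ)⟩⟩, fun F J hF => ?_⟩
    · obtain ⟨s', N, hg⟩ := hty.good
      have hC := hg.sys hFT ∅
      have h1 := general_or_ruled hC hw hy hcomp
      have h2 := four_comp hC hw (subVar_iff.2 hy) (componentU_of hcomp)
      have h3 : GeneralType ℂ K w ↔ BrodyV ∅ y := by
        rw [← general_iff y]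
        exact h2.out 0 2
      tfae_have 1 ↔ 2 := h3
      tfae_have 1 ↔ 3 := h1.out 0 2
      tfae_have 1 ↔ 4 := h1.out 0 1
      tfae_have 1 ↔ 5 := h1.out 0 3
      tfae_finish
    · have h1 := hty.crit hF J
      have h2 := hty.critSub hF (U := ∅) (J := J) fun j hj => absurd hj (Set.notMem_empty j)
      unfold LooseCriterion
      tfae_have 1 ↔ 2 := h1.out 0 3
      tfae_have 1 ↔ 3 := h1.out 0 1
      tfae_have 1 ↔ 4 := by
        rw [h2]
        constructor
        · rintro ⟨K, i1, i2, w, y, hw, hy, hyJ, hgt⟩
          exact ⟨K, i1, i2, w, y, hw, subVar_iff.1 hy, hyJ, fun h3 => hgt ((general_iff y).2 h3)⟩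
        · rintro ⟨K, i1, i2, w, y, hw, hy, hyJ, hgt⟩
          exact ⟨K, i1, i2, w, y, hw, subVar_iff.2 hy, hyJ, fun h3 => hgt ((general_iff y).1 h3)⟩
      tfae_finish
  · intro n m s I hm hI hall
    refine almost_typI (fun i => Finset.card_pos.1 (lt_of_lt_of_le (Nat.succ_pos m) (hI i)))
      fun d a hty F hFT hgc => ?_
    have hsp := spread_all hm hI hall
    exact ⟨fun f hf => hty.no_entire hFT hgc
      (J := Finset.univ.filter fun j => ∃ z, f z j ≠ 0) (fun j => by simp) (hsp _) hf,
      hty.all hFT hgc hsp⟩

/-- **Hyperbolic hypersurfaces.** Let a monomial of degree `d` in the variables from `I` be given for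
each set `I` of four of the `n + 1` variables. For almost all such families of monomials, all the
hypersurfaces in projective `n`-space given by linear combinations, with nonzero coefficients, of
these monomials and of the `x_j ^ d` are Brody hyperbolic, and all their subvarieties are of general
type. -/
theorem hypersurfaces (n s : ℕ) (I : Fin s → Finset (Fin (n + 1))) (hI : ∀ i, (I i).card = 4)
    (hall : ∀ A : Finset (Fin (n + 1)), A.card = 4 → ∃ i, I i = A) :
    AlmostAllIn I fun d a => ∀ F : MvPolynomial (Fin (n + 1)) ℂ, F.support = withPowers d a →
      (∀ f, ¬ EntireCurve ∅ (fun _ : Fin 1 => F) f) ∧ AllGeneralType (fun _ : Fin 1 => F) :=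
  (result.2 n 1 s I le_rfl (fun i => by rw [hI]; norm_num) hall).mono
    fun _ _ _ h F hF => h (fun _ => F) (fun _ => hF.le) (genCoeffs_one hF)

end Pool.Agent.Results.MP_2a5ae2_ag.AlmostAllMonomials
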