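import Pool.Agent.R871.SG.GGL

/-!
MP_2a5ae2_ag, Q1, for entire curves of slow growth in arbitrary projective varieties: such curves are
limits of rational curves, and they lie in a closed subset `Z` if and only if the rational curves do.
-/

set_option autoImplicit false

namespace Pool.Agent.Results.MP_2a5ae2_ag.SlowGrowth

open MvPolynomial Pool.Agent.R871.SG

/-- Let `X = {F = 0}` be a projective variety in `ℙⁿ` and let `K` be a closed subset of `ℙⁿ` in the
classical topology, given by a closed cone; for instance, `K` is `ℙⁿ` or a point. There is a function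
`φ` with `φ r / log r → ∞` for `r → ∞` which has the following properties.

(1) Let `f` be a holomorphic map from the plane to `X` with `f w ∈ K`, given by entire functions
without common zeros as homogeneous coordinates, such that `log ‖f z‖ ≤ φ r` for `‖z‖ ≤ r`, for
arbitrarily large `r`. Then `f` is a limit of rational curves in `X` which are at `w` in `K`, uniformly
on compact sets.

(2) For every closed subvariety `Z = {G = 0}`, all rational curves in `X` which meet `K` lie in `Z`, if
and only if all nonconstant entire curves in `X` which meet `K`, and are of such growth, lie in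
`Z`. -/
theorem result {n : ℕ} {ι : Type} (F : ι → MvPolynomial (Fin (n + 1)) ℂ)
    (hF : ∀ i, ∃ d, (F i).IsHomogeneous d) (K : Set (Fin (n + 1) → ℂ)) (hK : IsClosed K)
    (hKs : ∀ (a : ℂ), ∀ x ∈ K, a • x ∈ K) :
    ∃ φ : ℝ → ℝ, Grows φ ∧ LimitsOfRational F K φ ∧
      ∀ (κ : Type) (G : κ → MvPolynomial (Fin (n + 1)) ℂ), (∀ k, ∃ d, (G k).IsHomogeneous d) →
        (RationalIn F K G ↔ SlowIn F K φ G) := by
  obtain ⟨φ, hφ, h⟩ := approx_rational F hF hK hKs
  exact ⟨φ, hφ, h, fun κ G hG => slow_iff hφ h hKs hG⟩

end Pool.Agent.Results.MP_2a5ae2_ag.SlowGrowth
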