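import Pool.Agent.R845.US.App

/-!
# Entire curves of slow growth in almost all members of a family of projective varieties

Let a family of projective varieties `V_s` be given by forms whose coefficients are polynomials in
finitely many parameters `s`. There is one function `φ` with `φ r / log r → ∞` for `r → ∞` such that
for almost all `s` the following holds: if `V_s` contains a nonconstant entire curve of growth at
most `φ`, then some positive measure of members contains rational curves. In particular, let `X` be a
closed subset of the projective space of dimension at most `m` and let `d 1, …, d q` be degrees with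
`∑ d i + q ≥ 2 m + 1`. There is one function `φ` such that for almost all hypersurfaces of these
degrees all entire curves of growth at most `φ` in their intersection with `X` are constant.
-/

set_option autoImplicit false

namespace Pool.Agent.Results.MP_2a5ae2_ag.SlowGrowthFamilies

open MvPolynomial MeasureTheory
open Pool.Agent.R871.SG (Grows Slow Pol2)
open Pool.Agent.R845.US

variable {n : ℕ} {ι : Type}

/-- The map `f` given by homogeneous coordinates without common zeros is a holomorphic map from the
plane to the projective variety `{F = 0}`. -/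
def Curve (F : ι → MvPolynomial (Fin (n + 1)) ℂ) (f : ℂ → Fin (n + 1) → ℂ) : Prop :=
  Differentiable ℂ f ∧ (∀ z, f z ≠ 0) ∧ ∀ z i, eval (f z) (F i) = 0

/-- The map to the projective space with the homogeneous coordinates `f` is constant. -/
def Constant (f : ℂ → Fin (n + 1) → ℂ) : Prop := ∀ z w, ∃ a : ℂ, f w = a • f z

/-- The projective variety `{F = 0}` contains no rational curve: all maps given by polynomials are
constant. -/
def NoRationalCurve (F : ι → MvPolynomial (Fin (n + 1)) ℂ) : Prop :=
  ∀ P : Fin (n + 1) → Polynomial ℂ, Curve F (fun z j => (P j).eval z) →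
    Constant fun z j => (P j).eval z

/-- The projective variety `{F = 0}` contains no nonconstant entire curve of growth at most `φ`: a
holomorphic map from the plane with homogeneous coordinates `f` without common zeros is constant if,
for arbitrarily large `r`, `log ‖f z‖ ≤ φ r` on the disc of radius `r`. -/
def NoSlowCurve (φ : ℝ → ℝ) (F : ι → MvPolynomial (Fin (n + 1)) ℂ) : Prop :=
  ∀ f, Curve F f → (∀ R : ℝ, ∃ r > R, ∀ z, ‖z‖ ≤ r → Real.log ‖f z‖ ≤ φ r) → Constant f

theorem noRat_iff {F : ι → MvPolynomial (Fin (n + 1)) ℂ} : NoRationalCurve F ↔ ¬ HasRat F := by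
  constructor
  · rintro h ⟨P, hP, z, w, hzw⟩
    obtain ⟨a, ha⟩ := h P hP z w
    exact hzw a ha
  · intro h P hP z w
    by_contra hcon
    push Not at hcon
    exact h ⟨P, hP, z, w, hcon⟩

theorem noSlow_iff {φ : ℝ → ℝ} {F : ι → MvPolynomial (Fin (n + 1)) ℂ} :
    NoSlowCurve φ F ↔ ¬ HasSlow φ F := by
  constructor
  · rintro h ⟨f, hf, ⟨z, w, hzw⟩, hs⟩
    obtain ⟨a, ha⟩ := h f hf hs z w
    exact hzw a ha
  · intro h f hf hs z w
    by_contra hcon
    push Not at hcon
    exact h ⟨f, hf, ⟨z, w, hcon⟩, hs⟩

/-- (1) Let the projective varieties `V_s` be given by forms `F i` whose coefficients are polynomials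
in `s ∈ ℂᵐ`, and let `μ` be a measure on `ℂᵐ` which is finite on compact sets. Almost all `V_s`
contain no rational curve if and only if there is a function `φ` with `φ r / log r → ∞` such that
almost all `V_s` contain no nonconstant entire curve of growth at most `φ`.

(2) Let `X` be a closed subset of the projective space of dimension at most `m`, given by forms `G i`
(the ring of homogeneous coordinates has transcendence degree at most `m + 1`), and let
`∑ d i + q ≥ 2 m + 1`. There is a function `φ` with `φ r / log r → ∞` such that for almost all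
coefficients `c` (with respect to the Lebesgue measure) the intersection of `X` with the hypersurfaces
of degrees `d 1, …, d q` with the coefficients `c` contains no nonconstant entire curve of growth at
most `φ`. -/
theorem result :
    (∀ (n m : ℕ) (ι : Type) (F : ι → MvPolynomial (Fin (n + 1)) (MvPolynomial (Fin m) ℂ)),
      (∀ i, ∃ e, (F i).IsHomogeneous e) →
      ∀ (μ : Measure (Fin m → ℂ)) [IsFiniteMeasureOnCompacts μ],
        (∀ᵐ s ∂μ, NoRationalCurve fun i => map (eval s) (F i)) ↔
          ∃ φ : ℝ → ℝ, Grows φ ∧ ∀ᵐ s ∂μ, NoSlowCurve φ fun i => map (eval s) (F i)) ∧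
    (∀ (N m : ℕ) (κ : Type) (G : κ → MvPolynomial (Fin (N + 1)) ℂ),
      (∀ i, ∃ e, (G i).IsHomogeneous e) →
      Algebra.trdeg ℂ (MvPolynomial (Fin (N + 1)) ℂ ⧸ Ideal.span (Set.range G)) ≤ m + 1 →
      ∀ (q : ℕ) (d : Fin q → ℕ), 2 * m + 1 ≤ ∑ i, d i + q →
        ∃ φ : ℝ → ℝ, Grows φ ∧
          ∀ᵐ c : (i : Fin q) × {α : Fin (N + 1) →₀ ℕ // α.degree = d i} → ℂ,
            NoSlowCurve φ (Sum.elim G fun i =>
              ∑ α : {α : Fin (N + 1) →₀ ℕ // α.degree = d i}, monomial α.1 (c ⟨i, α⟩))) := by
  refine ⟨fun n m ι F hF μ _ => ?_, fun N m κ G hG hdim q d hd => ?_⟩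
  · have h := measure_family F hF μ
    simp only [noRat_iff, noSlow_iff, ae_iff, not_not]
    exact h
  · obtain ⟨φ, hφ, h⟩ := ae_intersections G hG hdim d hd
    refine ⟨φ, hφ, ?_⟩
    simp only [noSlow_iff]
    exact h

end Pool.Agent.Results.MP_2a5ae2_ag.SlowGrowthFamilies
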