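import Pool.Agent.R869.WProj

/-!
MP_2a5ae2_ag, Q1: pseudo-Brody hyperbolicity and general type for all irreducible components of the
projective varieties given by forms with few monomials whose exponents are far apart in the sense of
lattice widths (no divisibility of the exponents); entire curves in the hypersurfaces whose monomials
are dominated by different variables, in particular in all smooth hypersurfaces of large degree with
`n + 1` monomials.

`Wide ∅ F N` (`Pool/Agent/R869/WDefs.lean`): whenever at most `n` pairs of exponent vectors of the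
forms, in the variables of a set `I`, are such that the sum of the segments between them has positive
width in all directions, this sum has width at least `N` in all directions. `BrodyV ∅ y`
(`Pool/Agent/R869/WCptC.lean`): the variety `V` with generic point `y` is pseudo-Brody hyperbolic.
`Dominates F δ v`, `part F v S` (`WHyp.lean`): the monomials `α` of `F` have degree at most `δ` in
the variables other than `x_(v α)`, and `v` is injective on them; the sum of the terms with `v α` in
`S`. From the starting repository: `SubVar`, `Cone`, `IsForm` (`Pool/Agent/W602/GT/SpDefs.lean`),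
`IsComponent` (`MordDefs.lean`), `Acts` (`KStm.lean`): the function fields and generic points of the
closed subvarieties of `X = {F = 0}`, those which are irreducible components, diagonal actions;
`GeneralType` (`Defs.lean`), `Psef`, `Ruled` (`PsefDefs.lean`): general type, pseudo-effective
canonical class, birational to a product with the projective line; `EntireCurve ∅ F f`
(`Pool/Agent/H159R3/GGL/Log.lean`): `f` is the vector of homogeneous coordinates of an entire curve
in `X`.
-/

set_option autoImplicit false

namespace Pool.Agent.Results.MP_2a5ae2_ag.WideBrody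

open MvPolynomial Pool.Agent.W602.GT Pool.Agent.H159R3.GGLLog Pool.Agent.R869.Wd

/-- The assumptions of the first part of the theorem hold for the forms of large degree in which
different monomials are dominated by different variables. -/
theorem dominated {n : ℕ} {F : MvPolynomial (Fin (n + 1)) ℂ} {d δ : ℕ}
    (hd : F.IsHomogeneous d) (hF : Dominated F δ)
    (hN : 2 * δ + n * ((n + 1) * (n * (n - 1) / 2)) < d) :
    F.support.card ≤ n + 1 ∧ Wide ∅ (fun _ : Unit => F) (d - 2 * δ) ∧
      n * ((n + 1) * (n * (n - 1) / 2)) < d - 2 * δ :=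
  ⟨card_of_dominated hF, wide_of_dominated hd hF (by omega) (by omega), by omega⟩

/-- The assumptions of the second part of the theorem hold, with `δ = 1`, for all smooth
hypersurfaces with at most `n + 1` monomials. -/
theorem smooth {n : ℕ} {F : MvPolynomial (Fin (n + 1)) ℂ} {d : ℕ} (hn : 2 ≤ n) (hd3 : 3 ≤ d)
    (hd : F.IsHomogeneous d) (hsm : NonSing F) (hc : F.support.card ≤ n + 1) :
    Irreducible F ∧ F.support.card = n + 1 ∧ ∃ v, Dominates F 1 v :=
  ⟨irreducible_of_nonSing hn (by omega) hd hsm, (dominates_of_nonSing hd3 hd hsm hc).2,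
    (dominates_of_nonSing hd3 hd hsm hc).1⟩

/-- (1) Let `V` be an irreducible component, of positive dimension, of the projective variety given
by finitely many forms with at most `s` monomials, and let the system of forms be `N`-wide with
`N > n s (s - 1) (s - 2) / 2`. The following are equivalent: `V` is of general type; `V` is
pseudo-Brody hyperbolic; the canonical class of `V` is pseudo-effective; `V` is not ruled; all
diagonal one-parameter groups which act on `V` act trivially.

(2) Let `X` be given by a form `F` with monomials dominated by different variables up to the degree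
`δ`, and let `deg F > 2 δ + n ^ 2 (n ^ 2 - 1) / 2`. Then every entire curve in `X` satisfies an
equation `part F v S = 0`, where `S` is a nonempty set of variables which do not vanish on the curve,
and does not contain all these variables. If `n ≥ 2`, `F` is irreducible and has `n + 1` monomials,
then none of these equations holds identically on `X`, and `X` is of general type. -/
theorem result :
    (∀ (n : ℕ) (ι : Type) (F : ι → MvPolynomial (Fin (n + 1)) ℂ) (s N : ℕ), Finite ι → 1 ≤ s →
      (∀ e, IsForm (F e)) → (∀ e, (F e).support.card ≤ s) → Wide ∅ F N →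
      n * (s * ((s - 1) * (s - 2) / 2)) < N →
      ∀ (K : Type) [Field K] [Algebra ℂ K] (w : ℕ) (y : Fin (n + 1) → K), 1 ≤ w →
        SubVar F K w y → IsComponent F y →
        [GeneralType ℂ K w, BrodyV ∅ y, Psef ℂ K w (fun _ => False), ¬ Ruled ℂ K,
          ∀ b : Fin (n + 1) → ℤ, Acts ∅ ℂ y b → ∀ i i', y i ≠ 0 → y i' ≠ 0 → b i = b i'].TFAE) ∧
    ∀ (n : ℕ) (F : MvPolynomial (Fin (n + 1)) ℂ) (d δ : ℕ)
      (v : (Fin (n + 1) →₀ ℕ) → Fin (n + 1)), F.IsHomogeneous d → Dominates F δ v →
      2 * δ + n * ((n + 1) * (n * (n - 1) / 2)) < d →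
      (∀ f, EntireCurve ∅ (fun _ : Unit => F) f → ∃ S : Set (Fin (n + 1)), S.Nonempty ∧
        (∀ j ∈ S, ∃ z, f z j ≠ 0) ∧ (∃ j, j ∉ S ∧ ∃ z, f z j ≠ 0) ∧
          ∀ z, eval (f z) (part F v S) = 0) ∧
      (2 ≤ n → Irreducible F → F.support.card = n + 1 →
        (∀ S : Set (Fin (n + 1)), S.Nonempty → (∃ j, j ∉ S) →
          ∃ x ∈ Cone (fun _ : Unit => F), val x (part F v S) ≠ 0) ∧
        ∀ (K : Type) [Field K] [Algebra ℂ K] (w : ℕ) (y : Fin (n + 1) → K), 1 ≤ w →
          SubVar (fun _ : Unit => F) K w y →
          (∀ G : MvPolynomial (Fin (n + 1)) ℂ, IsForm G → val y G = 0 →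
            ∀ x ∈ Cone (fun _ : Unit => F), val x G = 0) → GeneralType ℂ K w) := by
  constructor
  · intro n ι F s N hfin hs hF hc hW hN K _ _ w y hw hy hcomp
    have hC : Sys ∅ F s N := ⟨hF, hs, hc, hW, by
      rw [tri_choose]
      refine lt_of_le_of_lt (le_of_eq ?_) hN
      ring⟩
    have h1 := general_or_ruled hC hw hy hcomp
    have h2 := four_comp hC hw (subVar_iff.2 hy) (componentU_of hcomp)
    have h3 : GeneralType ℂ K w ↔ BrodyV ∅ y := by
      rw [← general_iff y]
      exact h2.out 0 2
    tfae_have 1 ↔ 2 := h3
    tfae_have 1 ↔ 3 := h1.out 0 2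
    tfae_have 1 ↔ 4 := h1.out 0 1
    tfae_have 1 ↔ 5 := h1.out 0 3
    tfae_finish
  · intro n F d δ v hd hv hN
    refine ⟨fun f hf => entire_sum hd hv hN ∅ f hf, fun hn hF hc => ?_⟩
    have hd1 : 1 < d := by
      have h1 : 1 ≤ n * (n - 1) / 2 := by
        rw [Nat.le_div_iff_mul_le two_pos]
        calc 1 * 2 = 2 * 1 := rfl
          _ ≤ n * (n - 1) := Nat.mul_le_mul hn (by omega)
      have h2 : 1 * (1 * 1) ≤ n * ((n + 1) * (n * (n - 1) / 2)) :=
        Nat.mul_le_mul (by omega) (Nat.mul_le_mul (by omega) h1)
      omega
    refine ⟨fun S hS hS2 => ?_, fun K _ _ w y hw hy hgen => (general_iff y).1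
        (gt_generic hd hv hd1 hN hc hF (U := ∅) hw (subVar_iff.2 hy) hgen)⟩
    obtain ⟨x, hx, hne⟩ := excH_ne hd hv hd1 hc hF
    exact ⟨x, hx, fun h0 => hne (excH_zero hS hS2 h0)⟩

end Pool.Agent.Results.MP_2a5ae2_ag.WideBrody
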